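import Pool.Agent.N859.QW.Stm

/-!
# Project QW, task CROSS: the crossed product of a group von Neumann algebra contains the
semidirect product

An action of `G` on `Λ` by automorphisms gives a trace preserving action on `L(Λ)`; the crossed
product contains the unitaries of the semidirect product, and its commutant contains the unitaries
which move the cyclic vector in the same way.
-/

set_option autoImplicit false

open scoped InnerProductSpace CStarAlgebra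

namespace Pool.Agent.N278.QW

open Pool.Agent.N859.QW

section gen

variable {ι E : Type} [NormedAddCommGroup E] [InnerProductSpace ℂ E]

theorem two_pos' : 0 < (2 : ENNReal).toReal := by norm_num

theorem mem_pm (e : ι ≃ ι) (V : ι → (E ≃ₗᵢ[ℂ] E)) (ζ : lp (fun _ : ι => E) 2) :
    Memℓp (fun i => V i ((ζ : ∀ _ : ι, E) (e i))) 2 := by
  rw [memℓp_gen_iff two_pos']
  have h := (memℓp_gen_iff two_pos').1 (lp.memℓp ζ)
  have h2 := (e.summable_iff).2 h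
  refine h2.congr fun i => ?_
  simp

/-- permute the coordinates and apply isometries -/
noncomputable def pmF (e : ι ≃ ι) (V : ι → (E ≃ₗᵢ[ℂ] E)) (ζ : lp (fun _ : ι => E) 2) :
    lp (fun _ : ι => E) 2 := ⟨fun i => V i ((ζ : ∀ _ : ι, E) (e i)), mem_pm e V ζ⟩

theorem pmF_apply (e : ι ≃ ι) (V : ι → (E ≃ₗᵢ[ℂ] E)) (ζ : lp (fun _ : ι => E) 2) (i : ι) :
    (pmF e V ζ : ∀ _ : ι, E) i = V i ((ζ : ∀ _ : ι, E) (e i)) := rfl

/-- permute the coordinates and apply isometries, as an isometry -/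
noncomputable def pm (e : ι ≃ ι) (V : ι → (E ≃ₗᵢ[ℂ] E)) :
    lp (fun _ : ι => E) 2 ≃ₗᵢ[ℂ] lp (fun _ : ι => E) 2 where
  toFun := pmF e V
  invFun := pmF e.symm (fun i => (V (e.symm i)).symm)
  map_add' a b := by
    ext i
    simp [pmF_apply]
  map_smul' c a := by
    ext i
    simp [pmF_apply]
  left_inv ζ := by
    ext i
    simp [pmF_apply]
  right_inv ζ := by
    ext i
    simp [pmF_apply]
  norm_map' ζ := by
    show ‖pmF e V ζ‖ = ‖ζ‖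
    rw [lp.norm_eq_tsum_rpow two_pos', lp.norm_eq_tsum_rpow two_pos']
    congr 1
    simp only [pmF_apply, LinearIsometryEquiv.norm_map]
    exact e.tsum_eq fun i => ‖(ζ : ∀ _ : ι, E) i‖ ^ (2 : ENNReal).toReal

theorem pm_apply (e : ι ≃ ι) (V : ι → (E ≃ₗᵢ[ℂ] E)) (ζ : lp (fun _ : ι => E) 2) (i : ι) :
    (pm e V ζ : ∀ _ : ι, E) i = V i ((ζ : ∀ _ : ι, E) (e i)) := rfl

end gen

section vn

variable {H : Type} [NormedAddCommGroup H] [InnerProductSpace ℂ H] [CompleteSpace H]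

theorem mem_vN (S : Set (H →L[ℂ] H)) (x : H →L[ℂ] H) :
    x ∈ vN S ↔ ∀ y ∈ StarSubalgebra.centralizer ℂ S, y * x = x * y := by
  unfold vN
  rw [VonNeumannAlgebra.mem_commutant_iff]
  exact Iff.rfl

theorem subset_vN (S : Set (H →L[ℂ] H)) : S ⊆ vN S := by
  intro x hx
  rw [SetLike.mem_coe, mem_vN]
  intro y hy
  rw [StarSubalgebra.mem_centralizer_iff] at hy
  exact ((hy x hx).1).symm

/-- an operator in the star centralizer of the generators commutes with the algebra -/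
theorem comm_vN {S : Set (H →L[ℂ] H)} {x y : H →L[ℂ] H} (hx : x ∈ vN S)
    (hy : y ∈ StarSubalgebra.centralizer ℂ S) : x * y = y * x :=
  ((mem_vN S x).1 hx y hy).symm

/-- the operator of an isometry -/
noncomputable abbrev U (W : H ≃ₗᵢ[ℂ] H) : H →L[ℂ] H := (W : H →L[ℂ] H)

theorem star_U (W : H ≃ₗᵢ[ℂ] H) : star (U W) = U W.symm := by
  rw [ContinuousLinearMap.star_eq_adjoint]
  exact LinearIsometryEquiv.adjoint_eq_symm W

/-- an isometry commuting with the generators belongs to the star centralizer -/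
theorem mem_cent {S : Set (H →L[ℂ] H)} (W : H ≃ₗᵢ[ℂ] H)
    (h : ∀ T ∈ S, ∀ x, T (W x) = W (T x)) : U W ∈ StarSubalgebra.centralizer ℂ S := by
  rw [StarSubalgebra.mem_centralizer_iff]
  intro T hT
  have h1 : T * U W = U W * T := by
    ext x
    exact h T hT x
  have h2 : T * U W.symm = U W.symm * T := by
    ext x
    show T (W.symm x) = W.symm (T x)
    apply W.injective
    rw [LinearIsometryEquiv.apply_symm_apply, ← h T hT, LinearIsometryEquiv.apply_symm_apply]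
  refine ⟨h1, ?_⟩
  have h3 := congrArg star h2
  rw [star_mul, star_mul, star_U, LinearIsometryEquiv.symm_symm] at h3
  exact h3.symm

/-- conjugation with an isometry which maps the generators to the generators -/
theorem conj_mem {S : Set (H →L[ℂ] H)} (W : H ≃ₗᵢ[ℂ] H)
    (h : ∀ T ∈ S, W.conjStarAlgEquiv T ∈ S) {x : H →L[ℂ] H}
    (hx : x ∈ vN S) : W.conjStarAlgEquiv x ∈ vN S := by
  rw [mem_vN] at hx ⊢
  intro y hy
  have h1 : W.conjStarAlgEquiv.symm y ∈ StarSubalgebra.centralizer ℂ S := by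
    rw [StarSubalgebra.mem_centralizer_iff] at hy ⊢
    intro T hT
    obtain ⟨h2, h3⟩ := hy _ (h T hT)
    constructor
    · have := congrArg W.conjStarAlgEquiv.symm h2
      rw [map_mul, map_mul, StarAlgEquiv.symm_apply_apply] at this
      exact this
    · have := congrArg W.conjStarAlgEquiv.symm h3
      rw [map_mul, map_mul, map_star, StarAlgEquiv.symm_apply_apply] at this
      exact this
  have h2 := congrArg W.conjStarAlgEquiv (hx _ h1)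
  rw [map_mul, map_mul, StarAlgEquiv.apply_symm_apply] at h2
  exact h2

end vn

section main

variable {Λ G : Type} [Group Λ] [Group G]

/-- left translation -/
noncomputable def Lt : Λ →* (l2 Λ ≃ₗᵢ[ℂ] l2 Λ) where
  toFun a := pm (Equiv.mulLeft a⁻¹) fun _ => LinearIsometryEquiv.refl ℂ ℂ
  map_one' := by
    ext ζ x
    simp [pm_apply]
  map_mul' a b := by
    ext ζ x
    simp [pm_apply]

theorem Lt_apply (a : Λ) (ζ : l2 Λ) (x : Λ) :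
    (Lt a ζ : ∀ _ : Λ, ℂ) x = (ζ : ∀ _ : Λ, ℂ) (a⁻¹ * x) := rfl

/-- right translation, `δ_x ↦ δ_{x a}` -/
noncomputable def Rt (a : Λ) : l2 Λ ≃ₗᵢ[ℂ] l2 Λ :=
  pm (Equiv.mulRight a⁻¹) fun _ => LinearIsometryEquiv.refl ℂ ℂ

theorem Rt_apply (a : Λ) (ζ : l2 Λ) (x : Λ) :
    (Rt a ζ : ∀ _ : Λ, ℂ) x = (ζ : ∀ _ : Λ, ℂ) (x * a⁻¹) := rfl

/-- automorphisms of the group -/
noncomputable def Wt : MulAut Λ →* (l2 Λ ≃ₗᵢ[ℂ] l2 Λ) where
  toFun σ := pm (σ⁻¹).toEquiv fun _ => LinearIsometryEquiv.refl ℂ ℂ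
  map_one' := by
    ext ζ x
    rfl
  map_mul' a b := by
    ext ζ x
    rfl

theorem Wt_apply (σ : MulAut Λ) (ζ : l2 Λ) (x : Λ) :
    (Wt σ ζ : ∀ _ : Λ, ℂ) x = (ζ : ∀ _ : Λ, ℂ) (σ⁻¹ x) := rfl

theorem conj_Lt (σ : MulAut Λ) (T : l2 Λ →L[ℂ] l2 Λ)
    (hT : ∃ a : Λ, ∀ (ζ : l2 Λ) (x : Λ), (T ζ : ∀ _ : Λ, ℂ) x = (ζ : ∀ _ : Λ, ℂ) (a⁻¹ * x)) :
    ∃ a : Λ, ∀ (ζ : l2 Λ) (x : Λ), ((Wt σ).conjStarAlgEquiv T ζ : ∀ _ : Λ, ℂ) x =
      (ζ : ∀ _ : Λ, ℂ) (a⁻¹ * x) := by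
  obtain ⟨a, ha⟩ := hT
  refine ⟨σ a, fun ζ x => ?_⟩
  rw [LinearIsometryEquiv.conjStarAlgEquiv_apply_apply, Wt_apply, ha]
  show (Wt σ⁻¹ ζ : ∀ _ : Λ, ℂ) _ = _
  rw [Wt_apply, inv_inv, map_mul, map_inv, MulAut.apply_inv_self]

theorem conj_LG (σ : MulAut Λ) (x : l2 Λ →L[ℂ] l2 Λ) (hx : x ∈ LG Λ) :
    (Wt σ).conjStarAlgEquiv x ∈ LG Λ :=
  conj_mem (Wt σ) (fun T hT => conj_Lt σ T hT) hx

/-- right translations commute with `L(Λ)` -/
theorem Rt_comm (a : Λ) (x : l2 Λ →L[ℂ] l2 Λ) (hx : x ∈ LG Λ) (ζ : l2 Λ) :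
    x (Rt a ζ) = Rt a (x ζ) := by
  have h : U (Rt a) ∈ StarSubalgebra.centralizer ℂ {T : l2 Λ →L[ℂ] l2 Λ | ∃ a : Λ,
      ∀ (ζ : l2 Λ) (x : Λ), (T ζ : ∀ _ : Λ, ℂ) x = (ζ : ∀ _ : Λ, ℂ) (a⁻¹ * x)} := by
    apply mem_cent
    rintro T ⟨b, hb⟩ ζ
    ext x
    rw [hb, Rt_apply, Rt_apply, hb, mul_assoc]
  exact congrArg (fun T : l2 Λ →L[ℂ] l2 Λ => T ζ) (comm_vN hx h)

/-- left translations belong to `L(Λ)` -/
theorem Lt_mem (a : Λ) : U (Lt a) ∈ LG Λ := subset_vN _ ⟨a, fun _ _ => rfl⟩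

end main

section act

variable {H : Type} [NormedAddCommGroup H] [InnerProductSpace ℂ H] [CompleteSpace H]

/-- restriction of the conjugation with an isometry to a von Neumann algebra -/
noncomputable def rs1 (N : VonNeumannAlgebra H) (W : H ≃ₗᵢ[ℂ] H)
    (h : ∀ x ∈ N, W.conjStarAlgEquiv x ∈ N) (h' : ∀ x ∈ N, W.symm.conjStarAlgEquiv x ∈ N) :
    Aut N where
  toFun x := ⟨W.conjStarAlgEquiv x, h x x.2⟩
  invFun x := ⟨W.symm.conjStarAlgEquiv x, h' x x.2⟩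
  left_inv x := Subtype.ext (W.conjStarAlgEquiv.symm_apply_apply x)
  right_inv x := Subtype.ext (W.conjStarAlgEquiv.apply_symm_apply x)
  map_mul' x y := Subtype.ext (map_mul W.conjStarAlgEquiv (x : H →L[ℂ] H) (y : H →L[ℂ] H))
  map_add' x y := Subtype.ext (map_add W.conjStarAlgEquiv (x : H →L[ℂ] H) (y : H →L[ℂ] H))
  map_star' x := Subtype.ext (map_star W.conjStarAlgEquiv (x : H →L[ℂ] H))
  map_smul' c x := Subtype.ext (map_smul W.conjStarAlgEquiv c (x : H →L[ℂ] H))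

variable {Λ G : Type} [Group Λ] [Group G]

/-- the action of `G` on `L(Λ)` -/
noncomputable def al (θ : G →* MulAut Λ) : G →* Aut (LG Λ) where
  toFun g := rs1 (LG Λ) (Wt (θ g)) (conj_LG (θ g)) (conj_LG (θ g)⁻¹)
  map_one' := by
    ext x ζ y
    show (Wt (θ 1) ((x : l2 Λ →L[ℂ] l2 Λ) ((Wt (θ 1)).symm ζ)) : ∀ _ : Λ, ℂ) y =
      ((x : l2 Λ →L[ℂ] l2 Λ) ζ : ∀ _ : Λ, ℂ) y
    rw [map_one, map_one]
    rfl
  map_mul' g h := by
    ext x ζ y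
    show (Wt (θ (g * h)) ((x : l2 Λ →L[ℂ] l2 Λ) ((Wt (θ (g * h))).symm ζ)) : ∀ _ : Λ, ℂ) y =
      (Wt (θ g) (Wt (θ h) ((x : l2 Λ →L[ℂ] l2 Λ) ((Wt (θ h)).symm ((Wt (θ g)).symm ζ)))) :
        ∀ _ : Λ, ℂ) y
    rw [map_mul, map_mul]
    rfl

theorem al_apply (θ : G →* MulAut Λ) (g : G) (x : (LG Λ).toStarSubalgebra) (ζ : l2 Λ) :
    ((al θ g x : (LG Λ).toStarSubalgebra) : l2 Λ →L[ℂ] l2 Λ) ζ =
      Wt (θ g) ((x : l2 Λ →L[ℂ] l2 Λ) (Wt (θ g)⁻¹ ζ)) := rfl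

/-- the operators of `Λ` in the crossed product -/
noncomputable def Pa (θ : G →* MulAut Λ) : Λ →* (L2 G (l2 Λ) ≃ₗᵢ[ℂ] L2 G (l2 Λ)) where
  toFun a := pm (Equiv.refl G) fun g => Lt (θ g⁻¹ a)
  map_one' := by
    ext ζ g x
    simp [pm_apply]
  map_mul' a b := by
    ext ζ g x
    simp [pm_apply]

theorem Pa_apply (θ : G →* MulAut Λ) (a : Λ) (ζ : L2 G (l2 Λ)) (g : G) (x : Λ) :
    ((Pa θ a ζ : ∀ _ : G, l2 Λ) g : ∀ _ : Λ, ℂ) x =
      ((ζ : ∀ _ : G, l2 Λ) g : ∀ _ : Λ, ℂ) ((θ g⁻¹ a)⁻¹ * x) := rfl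

/-- the operators of `G` in the crossed product -/
noncomputable def Ph (Λ : Type) [Group Λ] : G →* (L2 G (l2 Λ) ≃ₗᵢ[ℂ] L2 G (l2 Λ)) where
  toFun h := pm (Equiv.mulLeft h⁻¹) fun _ => LinearIsometryEquiv.refl ℂ (l2 Λ)
  map_one' := by
    ext ζ g x
    simp [pm_apply]
  map_mul' a b := by
    ext ζ g x
    simp [pm_apply]

theorem Ph_apply (h : G) (ζ : L2 G (l2 Λ)) (g : G) :
    (Ph Λ h ζ : ∀ _ : G, l2 Λ) g = (ζ : ∀ _ : G, l2 Λ) (h⁻¹ * g) := rfl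

/-- the operators of `Λ` in the commutant -/
noncomputable def Ra (G : Type) (a : Λ) : L2 G (l2 Λ) ≃ₗᵢ[ℂ] L2 G (l2 Λ) :=
  pm (Equiv.refl G) fun _ => Rt a

omit [Group G] in
theorem Ra_apply (a : Λ) (ζ : L2 G (l2 Λ)) (g : G) :
    (Ra G a ζ : ∀ _ : G, l2 Λ) g = Rt a ((ζ : ∀ _ : G, l2 Λ) g) := rfl

/-- the operators of `G` in the commutant -/
noncomputable def Rh (θ : G →* MulAut Λ) (h : G) : L2 G (l2 Λ) ≃ₗᵢ[ℂ] L2 G (l2 Λ) :=
  pm (Equiv.mulRight h⁻¹) fun _ => Wt (θ h)⁻¹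

theorem Rh_apply (θ : G →* MulAut Λ) (h : G) (ζ : L2 G (l2 Λ)) (g : G) :
    (Rh θ h ζ : ∀ _ : G, l2 Λ) g = Wt (θ h)⁻¹ ((ζ : ∀ _ : G, l2 Λ) (g * h⁻¹)) := rfl

theorem covariance (θ : G →* MulAut Λ) (h : G) :
    (Pa θ).comp (MulEquiv.toMonoidHom (θ h)) =
      (MulEquiv.toMonoidHom (MulAut.conj (Ph Λ h))).comp (Pa θ) := by
  ext a ζ g x
  show ((Pa θ (θ h a) ζ : ∀ _ : G, l2 Λ) g : ∀ _ : Λ, ℂ) x =
    ((Ph Λ h (Pa θ a ((Ph Λ h)⁻¹ ζ)) : ∀ _ : G, l2 Λ) g : ∀ _ : Λ, ℂ) x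
  have hinv : (Ph Λ h)⁻¹ = Ph Λ h⁻¹ := (map_inv _ _).symm
  rw [hinv, Ph_apply, Pa_apply, Pa_apply, Ph_apply, inv_inv, mul_inv_cancel_left, mul_inv_rev,
    inv_inv, map_mul, MulAut.mul_apply]

/-- the unitaries of the semidirect product -/
noncomputable def uu (θ : G →* MulAut Λ) :
    (Λ ⋊[θ] G) →* unitary (L2 G (l2 Λ) →L[ℂ] L2 G (l2 Λ)) :=
  (Unitary.linearIsometryEquiv (𝕜 := ℂ) (H := L2 G (l2 Λ))).symm.toMonoidHom.comp
    (SemidirectProduct.lift (Pa θ) (Ph Λ) (covariance θ))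

theorem uu_eq (θ : G →* MulAut Λ) (γ : Λ ⋊[θ] G) :
    (uu θ γ : L2 G (l2 Λ) →L[ℂ] L2 G (l2 Λ)) = U (Pa θ γ.left) * U (Ph Λ γ.right) := rfl

/-- the unitaries of the commutant -/
noncomputable def rr (θ : G →* MulAut Λ) (γ : Λ ⋊[θ] G) : L2 G (l2 Λ) ≃ₗᵢ[ℂ] L2 G (l2 Λ) :=
  (Ra G γ.left).trans (Rh θ γ.right)

theorem Pa_mem (θ : G →* MulAut Λ) (a : Λ) : U (Pa θ a) ∈ crossed (LG Λ) (al θ) := by
  apply subset_vN
  left
  refine ⟨⟨U (Lt a), Lt_mem a⟩, fun ζ g => ?_⟩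
  ext x
  rw [al_apply]
  show ((Pa θ a ζ : ∀ _ : G, l2 Λ) g : ∀ _ : Λ, ℂ) x =
    (Wt (θ g⁻¹) (Lt a (Wt (θ g⁻¹)⁻¹ ((ζ : ∀ _ : G, l2 Λ) g))) : ∀ _ : Λ, ℂ) x
  rw [Pa_apply, Wt_apply, Lt_apply, Wt_apply, inv_inv, map_mul, MulAut.apply_inv_self,
    map_inv (θ g⁻¹) a]

theorem Ph_mem (θ : G →* MulAut Λ) (h : G) : U (Ph Λ h) ∈ crossed (LG Λ) (al θ) := by
  apply subset_vN
  right
  exact ⟨h, fun _ _ => rfl⟩

theorem Ra_cent (θ : G →* MulAut Λ) (a : Λ) :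
    U (Ra G a) ∈ StarSubalgebra.centralizer ℂ (crossedGen (LG Λ) (al θ)) := by
  apply mem_cent
  rintro T (⟨x, hx⟩ | ⟨h, hh⟩) ζ
  · apply lp.ext
    funext g
    rw [hx, Ra_apply, Ra_apply, hx]
    exact Rt_comm a _ (al θ g⁻¹ x).2 _
  · apply lp.ext
    funext g
    rw [hh, Ra_apply, Ra_apply, hh]

theorem Rh_cent (θ : G →* MulAut Λ) (k : G) :
    U (Rh θ k) ∈ StarSubalgebra.centralizer ℂ (crossedGen (LG Λ) (al θ)) := by
  apply mem_cent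
  rintro T (⟨x, hx⟩ | ⟨h, hh⟩) ζ
  · apply lp.ext
    funext g
    rw [hx, Rh_apply, Rh_apply, hx, mul_inv_rev, inv_inv, map_mul]
    show _ = Wt (θ k)⁻¹ (((al θ k (al θ g⁻¹ x) : (LG Λ).toStarSubalgebra) : l2 Λ →L[ℂ] l2 Λ) _)
    rw [al_apply θ k]
    show _ = (Wt (θ k)⁻¹ * Wt (θ k)) _
    rw [← map_mul, inv_mul_cancel, map_one]
    rfl
  · apply lp.ext
    funext g
    rw [hh, Rh_apply, Rh_apply, hh, mul_assoc]

theorem rr_comm (θ : G →* MulAut Λ) (γ : Λ ⋊[θ] G) (x : L2 G (l2 Λ) →L[ℂ] L2 G (l2 Λ))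
    (hx : x ∈ crossed (LG Λ) (al θ)) : x * U (rr θ γ) = U (rr θ γ) * x := by
  have h : U (rr θ γ) = U (Rh θ γ.right) * U (Ra G γ.left) := rfl
  rw [h]
  exact comm_vN hx (mul_mem (Rh_cent θ γ.right) (Ra_cent θ γ.left))

open Classical in
/-- the cyclic vector -/
noncomputable def xi (Λ G : Type) [Group Λ] [Group G] : L2 G (l2 Λ) :=
  lp.single 2 (1 : G) (dl Λ)

open Classical in
theorem xi_apply (g : G) (x : Λ) :
    ((xi Λ G : ∀ _ : G, l2 Λ) g : ∀ _ : Λ, ℂ) x = if g = 1 ∧ x = 1 then 1 else 0 := by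
  unfold xi
  by_cases h : g = 1
  · subst h
    rw [lp.single_apply_self]
    unfold dl
    by_cases h' : x = 1
    · subst h'
      rw [lp.single_apply_self, if_pos ⟨rfl, rfl⟩]
    · rw [lp.single_apply_ne _ _ _ h', if_neg fun h => h' h.2]
  · rw [lp.single_apply_ne _ _ _ h, if_neg fun h' => h h'.1]
    rfl

theorem inner_xi (y : L2 G (l2 Λ)) :
    ⟪xi Λ G, y⟫_ℂ = ((y : ∀ _ : G, l2 Λ) 1 : ∀ _ : Λ, ℂ) 1 := by
  classical
  unfold xi dl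
  rw [lp.inner_single_left, lp.inner_single_left]
  simp

theorem uu_xi (θ : G →* MulAut Λ) (γ : Λ ⋊[θ] G) (g : G) (x : Λ) :
    (((uu θ γ : L2 G (l2 Λ) →L[ℂ] L2 G (l2 Λ)) (xi Λ G) : ∀ _ : G, l2 Λ) g : ∀ _ : Λ, ℂ) x =
      ((xi Λ G : ∀ _ : G, l2 Λ) (γ.right⁻¹ * g) : ∀ _ : Λ, ℂ) ((θ g⁻¹ γ.left)⁻¹ * x) := by
  rw [uu_eq]
  show ((Pa θ γ.left (Ph Λ γ.right (xi Λ G)) : ∀ _ : G, l2 Λ) g : ∀ _ : Λ, ℂ) x = _
  rw [Pa_apply, Ph_apply]

theorem rr_xi (θ : G →* MulAut Λ) (γ : Λ ⋊[θ] G) (g : G) (x : Λ) :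
    ((rr θ γ (xi Λ G) : ∀ _ : G, l2 Λ) g : ∀ _ : Λ, ℂ) x =
      ((xi Λ G : ∀ _ : G, l2 Λ) (g * γ.right⁻¹) : ∀ _ : Λ, ℂ) (θ γ.right x * γ.left⁻¹) := by
  show ((Rh θ γ.right (Ra G γ.left (xi Λ G)) : ∀ _ : G, l2 Λ) g : ∀ _ : Λ, ℂ) x = _
  rw [Rh_apply, Wt_apply, Ra_apply, Rt_apply, inv_inv]

theorem eq1 (θ : G →* MulAut Λ) (γ : Λ ⋊[θ] G) :
    rr θ γ (xi Λ G) = (uu θ γ : L2 G (l2 Λ) →L[ℂ] L2 G (l2 Λ)) (xi Λ G) := by
  classical
  apply lp.ext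
  funext g
  apply lp.ext
  funext x
  rw [uu_xi, rr_xi, xi_apply, xi_apply]
  congr 1
  rw [eq_iff_iff, inv_mul_eq_one, mul_inv_eq_one, mul_inv_eq_one, inv_mul_eq_one]
  constructor
  · rintro ⟨h1, h2⟩
    refine ⟨h1.symm, ?_⟩
    rw [← h2, h1, ← MulAut.mul_apply, ← map_mul, inv_mul_cancel, map_one]
    rfl
  · rintro ⟨h1, h2⟩
    refine ⟨h1.symm, ?_⟩
    rw [← h2, h1, ← MulAut.mul_apply, ← map_mul, mul_inv_cancel, map_one]
    rfl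

/-- CROSS -/
theorem t_cross : S_CROSS := by
  classical
  intro Λ G _ _ θ
  refine ⟨al θ, ?_, uu θ, fun γ => U (rr θ γ), xi Λ G, ?_⟩
  · intro g x
    have h : ∀ σ : MulAut Λ, Wt σ (dl Λ) = dl Λ := by
      intro σ
      apply lp.ext
      funext y
      rw [Wt_apply]
      unfold dl
      by_cases h' : y = 1
      · subst h'
        rw [map_one]
      · rw [lp.single_apply_ne _ _ _ h', lp.single_apply_ne]
        intro h2
        apply h'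
        have := congrArg σ h2
        rwa [MulAut.apply_inv_self, map_one] at this
    rw [al_apply, h]
    calc ⟪dl Λ, Wt (θ g) ((x : l2 Λ →L[ℂ] l2 Λ) (dl Λ))⟫_ℂ =
        ⟪Wt (θ g) (dl Λ), Wt (θ g) ((x : l2 Λ →L[ℂ] l2 Λ) (dl Λ))⟫_ℂ := by rw [h]
      _ = _ := LinearIsometryEquiv.inner_map_map _ _ _
  · constructor
    · intro γ
      rw [uu_eq]
      exact mul_mem (Pa_mem θ _) (Ph_mem θ _)
    · intro γ x hx
      exact rr_comm θ γ x hx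
    · unfold xi dl
      rw [lp.norm_single (by norm_num), lp.norm_single (by norm_num), norm_one]
    · intro γ hγ
      rw [inner_xi, uu_xi, xi_apply, if_neg]
      · rintro ⟨h2, h3⟩
        apply hγ
        rw [mul_one, inv_eq_one] at h2 h3
        rw [inv_one, map_one] at h3
        exact SemidirectProduct.ext h3 h2
    · intro γ
      exact eq1 θ γ
    · intro γ
      have hu := eq1 θ γ
      have h1 : star (U (rr θ γ)) (xi Λ G) = (rr θ γ).symm (xi Λ G) := by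
        rw [star_U]
        rfl
      rw [h1]
      have hm : (uu θ γ : L2 G (l2 Λ) →L[ℂ] L2 G (l2 Λ)) ∈ crossed (LG Λ) (al θ) := by
        rw [uu_eq]
        exact mul_mem (Pa_mem θ _) (Ph_mem θ _)
      have h2 := congrArg (fun T : L2 G (l2 Λ) →L[ℂ] L2 G (l2 Λ) => T ((rr θ γ).symm (xi Λ G)))
        (rr_comm θ γ _ hm)
      have h3 : (uu θ γ : L2 G (l2 Λ) →L[ℂ] L2 G (l2 Λ)) (xi Λ G) = rr θ γ
          ((uu θ γ : L2 G (l2 Λ) →L[ℂ] L2 G (l2 Λ)) ((rr θ γ).symm (xi Λ G))) := by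
        refine Eq.trans ?_ h2
        show _ = (uu θ γ : L2 G (l2 Λ) →L[ℂ] L2 G (l2 Λ)) (rr θ γ ((rr θ γ).symm (xi Λ G)))
        rw [LinearIsometryEquiv.apply_symm_apply]
      rw [← hu] at h3
      have h4 := (rr θ γ).injective h3
      have h5 : (star (uu θ γ : L2 G (l2 Λ) →L[ℂ] L2 G (l2 Λ))) ((uu θ γ :
          L2 G (l2 Λ) →L[ℂ] L2 G (l2 Λ)) ((rr θ γ).symm (xi Λ G))) = (rr θ γ).symm (xi Λ G) :=
        congrArg (fun T : L2 G (l2 Λ) →L[ℂ] L2 G (l2 Λ) => T ((rr θ γ).symm (xi Λ G)))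
          (Unitary.coe_star_mul_self (uu θ γ))
      rw [← h5, ← h4]

end act

end Pool.Agent.N278.QW
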